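import Pool.Agent.Helper14.TK7.StD

/-!
# Project TK (levels `3·7^n`), module Stp: the operators on symbols and their rows
-/

set_option autoImplicit false

namespace Pool.Agent.Helper66.TK7

open Pool.Agent.Helper14.TK7
open Pool.Agent.Helper84.S7
open Pool.Agent.Helper4.S7 (Tm mulL sclL Gd)
open Pool.Agent.Helper76.TK7 (rYK edgeK HPlAK)
open Pool.Agent.Helper14.CV (Homog EqC act Tl)
open Pool.Agent.Helper4.TK (KTy SymK)

/-- Sum of two matrices of lists. -/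
private def ad4 (A B : Fin 4 → Fin 4 → List Tm) (i f : Fin 4) : List Tm := A i f ++ B i f

/-- `n` times a matrix of lists. -/
private def sm4 (n : ℤ) (A : Fin 4 → Fin 4 → List Tm) (i f : Fin 4) : List Tm := sclL n (A i f)

/-- All entries of a matrix of lists are good. -/
private def GG (A : Fin 4 → Fin 4 → List Tm) : Prop := ∀ i f, ∀ t ∈ A i f, Gd t

/-- The operator `Φ` preserves symbols and has the rows `A`. -/
private def Rw (r s : ℕ) (Φ : (ℤ → ℤ → ZMod 7) → (ℤ → ℤ → ZMod 7)) (A : Fin 4 → Fin 4 → List Tm) : Prop :=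
  GG A ∧ ∀ G, SymK 7 r (s + 1) G → SymK 7 r (s + 1) (Φ G) ∧
    ∀ i, (pfK (Φ G) i : Fn7 (7 ^ r) (7 ^ s)) = ∑ f : Fin 4, opL (A i f) (pfK G f)

private lemma gg_id (c : ℤ) : GG (id4 c) := by
  intro i f t ht
  unfold id4 at ht
  split_ifs at ht
  · rw [List.mem_singleton] at ht
    subst ht
    exact ⟨by norm_num, by norm_num⟩
  · simp at ht

private lemma gg_ad {A B : Fin 4 → Fin 4 → List Tm} (hA : GG A) (hB : GG B) : GG (ad4 A B) := by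
  intro i f t ht
  unfold ad4 at ht
  rcases List.mem_append.1 ht with h | h
  · exact hA i f t h
  · exact hB i f t h

private lemma gg_sm (n : ℤ) {A : Fin 4 → Fin 4 → List Tm} (hA : GG A) : GG (sm4 n A) := by
  intro i f t ht
  unfold sm4 sclL at ht
  obtain ⟨u, hu, rfl⟩ := List.mem_map.1 ht
  exact hA i f u hu

private lemma gg_mm (hp : S7Opm) {A B : Fin 4 → Fin 4 → List Tm} (hA : GG A) (hB : GG B) : GG (mm4 A B) := by
  intro i f t ht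
  unfold mm4 at ht
  rcases List.mem_append.1 ht with h | h
  · rcases List.mem_append.1 h with h | h
    · rcases List.mem_append.1 h with h | h
      · exact ((hp 0 0).1 _ _ (hA i 0) (hB 0 f)).1 t h
      · exact ((hp 0 0).1 _ _ (hA i 1) (hB 1 f)).1 t h
    · exact ((hp 0 0).1 _ _ (hA i 2) (hB 2 f)).1 t h
  · exact ((hp 0 0).1 _ _ (hA i 3) (hB 3 f)).1 t h

section

variable {r s : ℕ}

private lemma pf_add (G H : ℤ → ℤ → ZMod 7) (i : Fin 4) :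
    (pfK (G + H) i : Fn7 (7 ^ r) (7 ^ s)) = pfK G i + pfK H i := by
  funext x y
  simp only [pfK, edgeK, Pi.add_apply]
  ring

private lemma pf_smul (n : ℤ) (G : ℤ → ℤ → ZMod 7) (i : Fin 4) :
    (pfK (n • G) i : Fn7 (7 ^ r) (7 ^ s)) = ((n : ℤ) : ZMod 7) • pfK G i := by
  funext x y
  simp only [pfK, edgeK, Pi.smul_apply, smul_eq_mul, zsmul_eq_mul]
  ring

private lemma rw_ad (hp : S7Opm) {Φ Ψ : (ℤ → ℤ → ZMod 7) → (ℤ → ℤ → ZMod 7)}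
    {A B : Fin 4 → Fin 4 → List Tm} (hA : Rw r s Φ A) (hB : Rw r s Ψ B) :
    Rw r s (fun G => Φ G + Ψ G) (ad4 A B) := by
  refine ⟨gg_ad hA.1 hB.1, fun G hG => ?_⟩
  obtain ⟨a1, a2⟩ := hA.2 G hG
  obtain ⟨b1, b2⟩ := hB.2 G hG
  refine ⟨SymK.add a1 b1, fun i => ?_⟩
  rw [pf_add, a2, b2]
  simp only [ad4, (hp r s).2.2.1, LinearMap.add_apply, Finset.sum_add_distrib]

private lemma rw_sm (hp : S7Opm) (n : ℤ) {Φ : (ℤ → ℤ → ZMod 7) → (ℤ → ℤ → ZMod 7)}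
    {A : Fin 4 → Fin 4 → List Tm} (hA : Rw r s Φ A) :
    Rw r s (fun G => n • Φ G) (sm4 n A) := by
  refine ⟨gg_sm n hA.1, fun G hG => ?_⟩
  obtain ⟨a1, a2⟩ := hA.2 G hG
  refine ⟨SymK.smul n a1, fun i => ?_⟩
  rw [pf_smul, a2]
  simp only [sm4, (hp r s).2.1, LinearMap.smul_apply, Finset.smul_sum]

private lemma rw_mm (hp : S7Opm) {Φ Ψ : (ℤ → ℤ → ZMod 7) → (ℤ → ℤ → ZMod 7)}
    {A B : Fin 4 → Fin 4 → List Tm} (hA : Rw r s Φ A) (hB : Rw r s Ψ B) :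
    Rw r s (fun G => Φ (Ψ G)) (mm4 A B) := by
  refine ⟨gg_mm hp hA.1 hB.1, fun G hG => ?_⟩
  obtain ⟨b1, b2⟩ := hB.2 G hG
  obtain ⟨a1, a2⟩ := hA.2 _ b1
  refine ⟨a1, fun i => ?_⟩
  have hmul : ∀ g f : Fin 4, (opL (mulL (A i g) (B g f)) : Module.End (ZMod 7) (Fn7 (7 ^ r) (7 ^ s))) =
      opL (A i g) * opL (B g f) := fun g f => ((hp r s).1 _ _ (hA.1 i g) (hB.1 g f)).2
  rw [a2, Fin.sum_univ_four, b2, b2, b2, b2]
  simp only [Fin.sum_univ_four, mm4, (hp r s).2.2.1, hmul, LinearMap.add_apply, Module.End.mul_apply,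
    map_add]
  abel

private lemma op_one (F : Fn7 (7 ^ r) (7 ^ s)) : op7 1 0 0 1 F = F := by
  funext x y
  show F _ _ = F x y
  simp

private lemma rw_id (c : ℤ) : Rw r s (fun G => c • G) (id4 c) := by
  refine ⟨gg_id c, fun G hG => ⟨SymK.smul c hG, fun i => ?_⟩⟩
  rw [pf_smul]
  have h1 : ∀ f, (opL (id4 c f f) : Module.End (ZMod 7) (Fn7 (7 ^ r) (7 ^ s))) (pfK G f) =
      ((c : ℤ) : ZMod 7) • pfK G f := by
    intro f
    rw [show id4 c f f = [(c, 1, 0, 0, 1)] from if_pos rfl]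
    simp only [opL, List.map_cons, List.map_nil, List.sum_cons, List.sum_nil, add_zero,
      LinearMap.smul_apply, op_one]
  have h2 : ∀ f g, f ≠ g → (opL (id4 c f g) : Module.End (ZMod 7) (Fn7 (7 ^ r) (7 ^ s))) (pfK G g) = 0 := by
    intro f g hfg
    rw [show id4 c f g = [] from if_neg hfg]
    rfl
  rw [Finset.sum_eq_single i (fun g _ hg => h2 i g (Ne.symm hg)) (fun h => absurd (Finset.mem_univ i) h), h1]

private lemma pf_zero (H : ℤ → ℤ → ZMod 7) : (pfK H 0 : Fn7 (7 ^ r) (7 ^ s)) 0 0 = H 1 0 - H 0 1 := by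
  have hY : rYK 0 (0 : ZMod (7 ^ r)) (0 : ZMod (7 ^ s)) = 0 := by
    unfold rYK
    simp
  unfold pfK edgeK
  rw [hY]
  simp [e4, n4]

end

theorem hStp (hb : THkB) (h2 : THk 2 T2K) (h5 : THk 5 T5K) (h11 : THk 11 T11K) (h13 : THk 13 T13K)
    (h17 : THk 17 T17K) (h19 : THk 19 T19K) (h23 : THk 23 T23K) (h29 : THk 29 T29K) (h31 : THk 31 T31K)
    (h37 : THk 37 T37K) (h41 : THk 41 T41K) (h43 : THk 43 T43K) (h47 : THk 47 T47K)
    (ho : S7Opm) (hc : TCeG) (ha : HPlAK) : TStp := by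
  intro r s G hG
  have _ := ha
  have hl : ∀ (l : ℕ) (T : Fin 4 → Fin 4 → List Tm), l.Prime → l ≠ 7 → l ≠ 3 → THk l T → GG T →
      Rw r s (Tl l (7 ^ r)) T := fun l T hp h7 h2 hT hg => ⟨hg, fun G hG =>
    ⟨(hb (ZMod 7) _ r (s + 1) l G hp h7 h2 hG).1, hT r s G hG⟩⟩
  have r2 := hl 2 T2K (by norm_num) (by norm_num) (by norm_num) h2 (fun i f => (hc.1 i f).1)
  have r5 := hl 5 T5K (by norm_num) (by norm_num) (by norm_num) h5 (fun i f => (hc.1 i f).2.1)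
  have r11 := hl 11 T11K (by norm_num) (by norm_num) (by norm_num) h11 (fun i f => (hc.1 i f).2.2.1)
  have r13 := hl 13 T13K (by norm_num) (by norm_num) (by norm_num) h13 (fun i f => (hc.1 i f).2.2.2.1)
  have r17 := hl 17 T17K (by norm_num) (by norm_num) (by norm_num) h17
    (fun i f => (hc.1 i f).2.2.2.2.1)
  have r19 := hl 19 T19K (by norm_num) (by norm_num) (by norm_num) h19
    (fun i f => (hc.1 i f).2.2.2.2.2.1)
  have r23 := hl 23 T23K (by norm_num) (by norm_num) (by norm_num) h23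
    (fun i f => (hc.1 i f).2.2.2.2.2.2.1)
  have r29 := hl 29 T29K (by norm_num) (by norm_num) (by norm_num) h29
    (fun i f => (hc.1 i f).2.2.2.2.2.2.2.1)
  have r31 := hl 31 T31K (by norm_num) (by norm_num) (by norm_num) h31
    (fun i f => (hc.1 i f).2.2.2.2.2.2.2.2.1)
  have r37 := hl 37 T37K (by norm_num) (by norm_num) (by norm_num) h37
    (fun i f => (hc.1 i f).2.2.2.2.2.2.2.2.2.1)
  have r41 := hl 41 T41K (by norm_num) (by norm_num) (by norm_num) h41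
    (fun i f => (hc.1 i f).2.2.2.2.2.2.2.2.2.2.1)
  have r43 := hl 43 T43K (by norm_num) (by norm_num) (by norm_num) h43
    (fun i f => (hc.1 i f).2.2.2.2.2.2.2.2.2.2.2.1)
  have r47 := hl 47 T47K (by norm_num) (by norm_num) (by norm_num) h47
    (fun i f => (hc.1 i f).2.2.2.2.2.2.2.2.2.2.2.2)
  have rC : Rw r s (CoK (7 ^ r)) TcK :=
    rw_ad ho (rw_ad ho (rw_ad ho (rw_sm ho 2 r2) (rw_sm ho 5 r11)) (rw_sm ho 5 r17))
      (rw_sm ho 2 (rw_mm ho r2 r2))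
  have rA : Rw r s (AoK (7 ^ r)) TaK :=
    rw_ad ho (rw_ad ho (rw_ad ho (rw_ad ho (rw_ad ho (rw_ad ho (rw_ad ho (rw_ad ho (rw_ad ho r2
      (rw_sm ho 3 r5)) (rw_sm ho 2 r11)) (rw_sm ho 6 r13)) (rw_sm ho 4 r17)) (rw_sm ho 4 r19)) r29)
      (rw_sm ho 6 r37)) (rw_mm ho r2 rC)) (rw_sm ho 6 (rw_mm ho r5 r5))
  have rB : Rw r s (BoK (7 ^ r)) TbK :=
    rw_ad ho (rw_ad ho (rw_ad ho r5 (rw_sm ho 4 r11)) (rw_sm ho 2 r13)) r31
  have rU : Rw r s (UoK (7 ^ r)) ULK :=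
    rw_ad ho (rw_ad ho (rw_ad ho (rw_ad ho (rw_ad ho (rw_ad ho (rw_ad ho (rw_ad ho
      (rw_id (r := r) (s := s) 4) (rw_sm ho 2 r2)) (rw_sm ho 5 r11)) (rw_sm ho 4 r13))
      (rw_sm ho 6 r19)) (rw_sm ho 3 r23)) r41) (rw_sm ho 6 (rw_mm ho r2 r2)))
      (rw_sm ho 5 (rw_mm ho r2 r5))
  have rV : Rw r s (VoK (7 ^ r)) VLK :=
    rw_ad ho (rw_ad ho (rw_ad ho (rw_ad ho (rw_ad ho (rw_ad ho (rw_ad ho (rw_ad ho (rw_ad ho (rw_ad ho
      (rw_ad ho (rw_ad ho (rw_ad ho (rw_ad ho (rw_sm ho 2 r2) (rw_sm ho 4 r5)) (rw_sm ho 5 r13))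
      (rw_sm ho 2 r17)) (rw_sm ho 5 r19)) (rw_sm ho 6 r23)) (rw_sm ho 6 r29)) (rw_sm ho 2 r31))
      (rw_sm ho 4 r37)) r41) (rw_sm ho 2 r43)) (rw_sm ho 5 r47)) (rw_mm ho r2 rA))
      (rw_mm ho r5 rB)) (rw_sm ho 4 (rw_mm ho r11 r11))
  refine ⟨rU.2 G hG, rV.2 G hG, fun c => ?_, fun H => pf_zero H⟩
  have q0 := (rw_id (r := r) (s := s) 1).2 G hG
  have q1 := (rw_ad ho (rw_id (r := r) (s := s) 2) (rw_sm ho 4 r2)).2 G hG
  have q2 := (rw_ad ho (rw_id (r := r) (s := s) 1) (rw_sm ho 5 (rw_mm ho r2 r5))).2 G hG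
  have q3 := (rw_ad ho (rw_ad ho (rw_ad ho (rw_ad ho (rw_id (r := r) (s := s) 1)
    (rw_sm ho 5 r2)) (rw_sm ho 2 r5)) (rw_sm ho 3 r11)) (rw_sm ho 3 (rw_mm ho r2 r2))).2 G hG
  have q4 := (rw_ad ho (rw_ad ho (rw_ad ho (rw_ad ho (rw_id (r := r) (s := s) 6) r11)
    (rw_sm ho 4 r29)) (rw_sm ho 3 (rw_mm ho r2 r5)))
    (rw_sm ho 3 (rw_mm ho r2 (rw_mm ho r2 r2)))).2 G hG
  have q5 := (rw_ad ho (rw_ad ho (rw_ad ho (rw_ad ho (rw_ad ho (rw_ad ho (rw_ad ho (rw_ad ho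
    (rw_ad ho (rw_ad ho (rw_ad ho (rw_id (r := r) (s := s) 2) r2) (rw_sm ho 6 r5)) r11)
    (rw_sm ho 6 r17)) (rw_sm ho 3 r19)) (rw_sm ho 4 r29)) (rw_sm ho 2 r31)) (rw_sm ho 3 r37))
    (rw_sm ho 3 (rw_mm ho r2 r5))) (rw_sm ho 5 (rw_mm ho r2 r11)))
    (rw_sm ho 4 (rw_mm ho r2 (rw_mm ho r2 r2)))).2 G hG
  have q6 := (rw_ad ho (rw_ad ho (rw_ad ho (rw_ad ho (rw_ad ho (rw_ad ho (rw_ad ho (rw_ad ho
    (rw_ad ho (rw_ad ho (rw_id (r := r) (s := s) 4) (rw_sm ho 5 r2)) (rw_sm ho 3 r5))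
    (rw_sm ho 4 r13)) (rw_sm ho 4 r19)) (rw_sm ho 3 r23)) r29) (rw_sm ho 3 r37))
    (rw_sm ho 5 (rw_mm ho r2 r2))) (rw_sm ho 2 (rw_mm ho r2 r23)))
    (rw_sm ho 4 (rw_mm ho r2 (rw_mm ho r2 r2)))).2 G hG
  have q7 := (rw_ad ho (rw_ad ho (rw_ad ho (rw_ad ho (rw_ad ho (rw_ad ho (rw_ad ho (rw_ad ho
    (rw_ad ho (rw_ad ho (rw_ad ho (rw_ad ho (rw_ad ho (rw_id (r := r) (s := s) 4)
    (rw_sm ho 5 r2)) (rw_sm ho 3 r5)) (rw_sm ho 3 r11)) (rw_sm ho 6 r13)) (rw_sm ho 2 r17))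
    (rw_sm ho 2 r23)) (rw_sm ho 4 r29)) (rw_sm ho 3 r31)) (rw_sm ho 4 (rw_mm ho r2 r2)))
    (rw_sm ho 3 (rw_mm ho r2 r13))) (rw_sm ho 5 (rw_mm ho r2 r17)))
    (rw_sm ho 6 (rw_mm ho r2 r19))) (rw_sm ho 5 (rw_mm ho r2 (rw_mm ho r2 r5)))).2 G hG
  have h1 : ((1 : ℤ) • G) = G := one_smul ℤ G
  fin_cases c
  · have h := q0.2 0
    simp only [one_smul] at h
    exact h
  · exact q1.2 0
  · have h := q2.2 0
    simp only [one_smul] at h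
    exact h
  · have h := q3.2 0
    simp only [one_smul] at h
    exact h
  · exact q4.2 0
  · exact q5.2 0
  · exact q6.2 0
  · exact q7.2 0

end Pool.Agent.Helper66.TK7
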